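import Mathlib
import Pool.Agent.Helper13.JS.St

/-!
Module VW of project JS (MP_924f75_nt).
-/

set_option autoImplicit false

open Finset ArithmeticFunction Pool.Agent.Helper13.JS
open Pool.Agent.Helper15.AB (IsW)
open Pool.Agent.Helper60.GP (II)

namespace Pool.Agent.Helper9.JS

lemma mulle (j : ℕ) (y m n : ℕ) (hm : m ≤ ⌊(y : ℝ) / (3 * Real.exp j)⌋₊)
    (hn : n ≤ ⌊3 * Real.exp j⌋₊) : m * n ≤ y := by
  have he : (0 : ℝ) < 3 * Real.exp j := by positivity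
  have h1 : (m : ℝ) ≤ (y : ℝ) / (3 * Real.exp j) :=
    (Nat.cast_le.mpr hm).trans (Nat.floor_le (by positivity))
  have h2 : (n : ℝ) ≤ 3 * Real.exp j := (Nat.cast_le.mpr hn).trans (Nat.floor_le he.le)
  have h3 : (m : ℝ) * n ≤ y := by
    calc (m : ℝ) * n ≤ (y : ℝ) / (3 * Real.exp j) * (3 * Real.exp j) :=
          mul_le_mul h1 h2 (Nat.cast_nonneg _) (by positivity)
      _ = y := div_mul_cancel₀ _ he.ne'
  exact_mod_cast h3

lemma two (ω : ℝ → ℝ) (hω : IsW ω) (J : Finset ℕ) (n : ℕ) (hn : 1 ≤ n) :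
    ∑ j ∈ J, ω (Real.log (n / Real.exp j)) ≤ 2 := by
  classical
  have hlog : ∀ j : ℕ, Real.log ((n : ℝ) / Real.exp j) = Real.log n - j := by
    intro j
    rw [Real.log_div (by positivity) (by positivity), Real.log_exp]
  have hL : 0 ≤ Real.log n := Real.log_nonneg (by exact_mod_cast hn)
  have h1 : ∑ j ∈ J, ω (Real.log (n / Real.exp j))
      = ∑ j ∈ J.filter (fun j : ℕ => ω (Real.log (n / Real.exp j)) ≠ 0),
        ω (Real.log (n / Real.exp j)) := (Finset.sum_filter_ne_zero _).symm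
  rw [h1]
  have h2 : J.filter (fun j : ℕ => ω (Real.log (n / Real.exp j)) ≠ 0)
      ⊆ {⌊Real.log n⌋₊ - 1, ⌊Real.log n⌋₊} := by
    intro j hj
    rw [Finset.mem_filter] at hj
    have h3 : Real.log n - j ∈ Set.Icc (0 : ℝ) 1 := by
      by_contra hc
      exact hj.2 (by rw [hlog]; exact hω.supp _ hc)
    have h4 : j ≤ ⌊Real.log n⌋₊ := Nat.le_floor (by linarith [h3.1])
    have h5 : ⌊Real.log n⌋₊ ≤ j + 1 := by
      have := Nat.floor_le hL
      have h6 : (⌊Real.log n⌋₊ : ℝ) ≤ ((j + 1 : ℕ) : ℝ) := by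
        push_cast
        linarith [h3.2]
      exact_mod_cast h6
    rw [Finset.mem_insert, Finset.mem_singleton]
    omega
  calc ∑ j ∈ J.filter (fun j : ℕ => ω (Real.log (n / Real.exp j)) ≠ 0),
        ω (Real.log (n / Real.exp j))
      ≤ ∑ j ∈ J.filter (fun j : ℕ => ω (Real.log (n / Real.exp j)) ≠ 0), (1 : ℝ) :=
        Finset.sum_le_sum fun j _ => hω.le_one _
    _ = ((J.filter (fun j : ℕ => ω (Real.log (n / Real.exp j)) ≠ 0)).card : ℝ) := by simp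
    _ ≤ (({⌊Real.log n⌋₊ - 1, ⌊Real.log n⌋₊} : Finset ℕ).card : ℝ) := by
        exact_mod_cast Finset.card_le_card h2
    _ ≤ 2 := by exact_mod_cast Finset.card_le_two

lemma one (ω : ℝ → ℝ) (hω : IsW ω) (x y : ℕ) (κ : ℝ) (a : ℕ → ℤ) (j : ℕ) :
    ∑ m ∈ Icc 1 ⌊(y : ℝ) / (3 * Real.exp j)⌋₊,
      ∑ n ∈ (II (Real.exp j)).filter (fun n : ℕ =>
        (∀ s ∈ Qs x κ a, ¬ (s : ℤ) ∣ ((m * n : ℕ) : ℤ) - a s) ∧ ¬ n.minFac ∈ On x a),
        al x a m * (Λ n * ω (Real.log (n / Real.exp j))) ≤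
    ∑ N ∈ Sv x y κ a, ∑ n ∈ N.divisors, Λ n * ω (Real.log (n / Real.exp j)) := by
  classical
  set V := Real.exp j with hV
  set M := ⌊(y : ℝ) / (3 * V)⌋₊ with hM
  set t : (Σ _ : ℕ, ℕ) → ℝ := fun q => al x a q.1 * (Λ q.2 * ω (Real.log (q.2 / V))) with ht
  set h : (Σ _ : ℕ, ℕ) → ℝ := fun q => Λ q.2 * ω (Real.log (q.2 / V)) with hh
  have hh0 : ∀ q, 0 ≤ h q := fun q => mul_nonneg vonMangoldt_nonneg (hω.nonneg _)
  set D : Finset (Σ _ : ℕ, ℕ) := (Icc 1 M).sigma fun m => (II V).filter (fun n : ℕ =>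
        (∀ s ∈ Qs x κ a, ¬ (s : ℤ) ∣ ((m * n : ℕ) : ℤ) - a s) ∧ ¬ n.minFac ∈ On x a) with hD
  have e1 : ∑ m ∈ Icc 1 M,
      ∑ n ∈ (II V).filter (fun n : ℕ =>
        (∀ s ∈ Qs x κ a, ¬ (s : ℤ) ∣ ((m * n : ℕ) : ℤ) - a s) ∧ ¬ n.minFac ∈ On x a),
        al x a m * (Λ n * ω (Real.log (n / V))) = ∑ q ∈ D, t q := by
    rw [hD, Finset.sum_sigma]
  have e2 : ∑ N ∈ Sv x y κ a, ∑ n ∈ N.divisors, Λ n * ω (Real.log (n / V))
      = ∑ q ∈ (Sv x y κ a).sigma (fun N => N.divisors), h q := by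
    rw [Finset.sum_sigma]
  rw [e1, e2, ← Finset.sum_filter_ne_zero]
  set P := D.filter (fun q => t q ≠ 0) with hP
  have hmemD : ∀ q ∈ D, 1 ≤ q.1 ∧ q.1 ≤ M ∧ 1 ≤ q.2 ∧ q.2 ≤ ⌊3 * V⌋₊ ∧
      (∀ s ∈ Qs x κ a, ¬ (s : ℤ) ∣ ((q.1 * q.2 : ℕ) : ℤ) - a s) ∧ ¬ q.2.minFac ∈ On x a := by
    rintro ⟨m, n⟩ hq
    rw [hD, Finset.mem_sigma, Finset.mem_filter, II, Finset.mem_Icc, Finset.mem_Icc] at hq
    exact ⟨hq.1.1, hq.1.2, hq.2.1.1, hq.2.1.2, hq.2.2.1, hq.2.2.2⟩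
  have hal : ∀ q ∈ P, ((∀ p ∈ On x a, ¬ p ∣ q.1) ∧ ((2 : ℤ) ∣ a 2 ∨ 2 ∣ q.1)) ∧
      Λ q.2 ≠ 0 := by
    intro q hq
    rw [hP, Finset.mem_filter] at hq
    have h1 := hq.2
    simp only [ht] at h1
    have h2 := left_ne_zero_of_mul h1
    have h3 := left_ne_zero_of_mul (right_ne_zero_of_mul h1)
    refine ⟨?_, h3⟩
    by_contra hc
    exact h2 (by unfold al; rw [if_neg hc])
  set g : (Σ _ : ℕ, ℕ) → (Σ _ : ℕ, ℕ) := fun q => ⟨q.1 * q.2, q.2⟩ with hg
  have hinj : Set.InjOn g (P : Set (Σ _ : ℕ, ℕ)) := by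
    rintro ⟨m, n⟩ hq ⟨m', n'⟩ hq' he
    have hq0 := (hmemD _ (Finset.mem_filter.mp (Finset.mem_coe.mp hq)).1).2.2.1
    simp only [hg, Sigma.mk.injEq, heq_eq_eq] at he
    obtain ⟨h1, h2⟩ := he
    subst h2
    have h3 : m = m' := Nat.eq_of_mul_eq_mul_right (by exact hq0) h1
    subst h3
    rfl
  have hle : ∀ q ∈ P, t q ≤ h (g q) := by
    intro q hq
    have h1 := (hal q hq).1
    simp only [ht, hh, hg]
    unfold al
    rw [if_pos h1, one_mul]
  have himg : P.image g ⊆ (Sv x y κ a).sigma (fun N => N.divisors) := by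
    intro r hr
    rw [Finset.mem_image] at hr
    obtain ⟨q, hq, rfl⟩ := hr
    obtain ⟨d1, d2, d3, d4, d5, d6⟩ := hmemD q (Finset.mem_filter.mp hq).1
    obtain ⟨⟨a1, a2⟩, a3⟩ := hal q hq
    have hle := mulle j y q.1 q.2 d2 d4
    have hpos : 1 ≤ q.1 * q.2 := Nat.mul_pos d1 d3
    rw [Finset.mem_sigma]
    refine ⟨?_, ?_⟩
    · simp only [hg]
      unfold Sv
      rw [Finset.mem_filter, Finset.mem_Icc]
      refine ⟨⟨hpos, hle⟩, ?_, d5, ?_⟩
      · intro p hp hdvd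
        have hpp : p.Prime := by
          unfold On at hp
          exact (Finset.mem_filter.mp hp).2.1
        rcases (Nat.Prime.dvd_mul hpp).mp hdvd with h1 | h1
        · exact a1 p hp h1
        · rw [vonMangoldt_ne_zero_iff] at a3
          obtain ⟨r, k, hr, hk, hrk⟩ := a3
          have hr' : r.Prime := hr.nat_prime
          rw [← hrk] at h1
          have h2 : p = r := (Nat.prime_dvd_prime_iff_eq hpp hr').mp (hpp.dvd_of_dvd_pow h1)
          apply d6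
          rw [← hrk, Nat.pow_minFac hk.ne', hr'.minFac_eq, ← h2]
          exact hp
      · rcases a2 with h1 | h1
        · exact Or.inl h1
        · exact Or.inr (h1.mul_right _)
    · simp only [hg]
      rw [Nat.mem_divisors]
      exact ⟨Nat.dvd_mul_left _ _, by omega⟩
  calc ∑ q ∈ P, t q ≤ ∑ q ∈ P, h (g q) := Finset.sum_le_sum hle
    _ = ∑ r ∈ P.image g, h r := (Finset.sum_image hinj).symm
    _ ≤ _ := Finset.sum_le_sum_of_subset_of_nonneg himg fun r _ _ => hh0 r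

theorem hVW : StVW := by
  intro ω hω x y κ a J hy
  have hy0 : 0 ≤ Real.log y := Real.log_nonneg (by exact_mod_cast hy)
  calc ∑ j ∈ J, ∑ m ∈ Icc 1 ⌊(y : ℝ) / (3 * Real.exp j)⌋₊,
      ∑ n ∈ (II (Real.exp j)).filter (fun n : ℕ =>
        (∀ s ∈ Qs x κ a, ¬ (s : ℤ) ∣ ((m * n : ℕ) : ℤ) - a s) ∧ ¬ n.minFac ∈ On x a),
        al x a m * (Λ n * ω (Real.log (n / Real.exp j)))
      ≤ ∑ j ∈ J, ∑ N ∈ Sv x y κ a, ∑ n ∈ N.divisors,
          Λ n * ω (Real.log (n / Real.exp j)) :=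
        Finset.sum_le_sum fun j _ => one ω hω x y κ a j
    _ = ∑ N ∈ Sv x y κ a, ∑ n ∈ N.divisors, Λ n * ∑ j ∈ J, ω (Real.log (n / Real.exp j)) := by
        rw [Finset.sum_comm]
        refine Finset.sum_congr rfl fun N _ => ?_
        rw [Finset.sum_comm]
        refine Finset.sum_congr rfl fun n _ => ?_
        rw [Finset.mul_sum]
    _ ≤ ∑ N ∈ Sv x y κ a, 2 * Real.log y := by
        refine Finset.sum_le_sum fun N hN => ?_
        have hN' : 1 ≤ N ∧ N ≤ y := by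
          unfold Sv at hN
          exact Finset.mem_Icc.mp (Finset.mem_filter.mp hN).1
        calc ∑ n ∈ N.divisors, Λ n * ∑ j ∈ J, ω (Real.log (n / Real.exp j))
            ≤ ∑ n ∈ N.divisors, Λ n * 2 := by
              refine Finset.sum_le_sum fun n hn => ?_
              exact mul_le_mul_of_nonneg_left
                (two ω hω J n (Nat.pos_of_mem_divisors hn)) vonMangoldt_nonneg
          _ = 2 * Real.log N := by
              rw [← Finset.sum_mul, vonMangoldt_sum, mul_comm]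
          _ ≤ 2 * Real.log y := by
              have : Real.log N ≤ Real.log y :=
                Real.log_le_log (by exact_mod_cast hN'.1) (by exact_mod_cast hN'.2)
              linarith
    _ = 2 * Real.log y * (Sv x y κ a).card := by
        rw [Finset.sum_const, nsmul_eq_mul]
        ring

end Pool.Agent.Helper9.JS
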